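import Mathlib

/-!
# Invariant monomial lattices of diagonalizable groups: the support bound
-/

namespace Pool.Agent.Q93.TAU

open Finset

variable {X : Type*} [AddCommGroup X] {n : ℕ}

/-- The exponent vectors, seen in `ℤ ^ n`, of the invariant monomials with support in `I`:
`B_I = {m ∈ ℕ ^ n : m_1 χ_1 + ... + m_n χ_n = 0, supp m ⊆ I}`. -/
def B (χ : Fin n → X) (I : Finset (Fin n)) : Set (Fin n → ℤ) :=
  {z | ∃ m : Fin n → ℕ, ∑ i, m i • χ i = 0 ∧ (∀ i, m i ≠ 0 → i ∈ I) ∧ z = fun i => (m i : ℤ)}

/-- `t` is such that for every `I` the group generated by `B_I` is generated by the `B_J` with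
`J ⊆ I` and `|J| ≤ t`. -/
def IsBound (χ : Fin n → X) (t : ℕ) : Prop :=
  ∀ I : Finset (Fin n), AddSubgroup.closure (B χ I) =
    AddSubgroup.closure {z | ∃ J : Finset (Fin n), J ⊆ I ∧ J.card ≤ t ∧ z ∈ B χ J}

/-- `τ(B)`: the least `t` with that property. -/
noncomputable def tau (χ : Fin n → X) : ℕ := sInf {t | IsBound χ t}

/-- The lattice of all relations with support in `I`. -/
def L (χ : Fin n → X) (I : Finset (Fin n)) : AddSubgroup (Fin n → ℤ) where
  carrier := {z | ∑ i, z i • χ i = 0 ∧ ∀ i, z i ≠ 0 → i ∈ I}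
  zero_mem' := ⟨by simp, fun i h => absurd rfl h⟩
  add_mem' := by
    rintro a b ⟨ha, ha'⟩ ⟨hb, hb'⟩
    refine ⟨?_, ?_⟩
    · simp only [Pi.add_apply, add_smul, Finset.sum_add_distrib, ha, hb, add_zero]
    · intro i hi
      by_contra h
      apply hi
      rw [Pi.add_apply, not_not.1 (fun h' => h (ha' i h')), not_not.1 (fun h' => h (hb' i h')),
        add_zero]
  neg_mem' := by
    rintro a ⟨ha, ha'⟩
    refine ⟨?_, ?_⟩
    · simp only [Pi.neg_apply, neg_smul, Finset.sum_neg_distrib, ha, neg_zero]
    · intro i hi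
      apply ha' i
      intro h
      apply hi
      rw [Pi.neg_apply, h, neg_zero]

theorem mem_L {χ : Fin n → X} {I : Finset (Fin n)} {z : Fin n → ℤ} :
    z ∈ L χ I ↔ ∑ i, z i • χ i = 0 ∧ ∀ i, z i ≠ 0 → i ∈ I := Iff.rfl

theorem L_mono {χ : Fin n → X} {I J : Finset (Fin n)} (h : I ⊆ J) : L χ I ≤ L χ J :=
  fun _ hz => ⟨hz.1, fun i hi => h (hz.2 i hi)⟩

theorem B_mono {χ : Fin n → X} {I J : Finset (Fin n)} (h : I ⊆ J) : B χ I ⊆ B χ J := by
  rintro z ⟨m, h1, h2, h3⟩
  exact ⟨m, h1, fun i hi => h (h2 i hi), h3⟩

theorem B_subset_L {χ : Fin n → X} {I : Finset (Fin n)} : B χ I ⊆ L χ I := by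
  rintro z ⟨m, h1, h2, rfl⟩
  refine ⟨?_, ?_⟩
  · simpa using h1
  · intro i hi
    exact h2 i (by simpa using hi)

/-- If `I` is the support of an invariant monomial then the relations on `I` are generated by
invariant monomials. -/
theorem L_le_closure {χ : Fin n → X} {I : Finset (Fin n)} {m : Fin n → ℕ}
    (hm : ∑ i, m i • χ i = 0) (hI : ∀ i, m i ≠ 0 ↔ i ∈ I) :
    L χ I ≤ AddSubgroup.closure (B χ I) := by
  rintro z ⟨hz, hz'⟩
  let N : ℕ := ∑ i, (z i).natAbs
  have hN : ∀ i, (z i).natAbs ≤ N := fun i =>
    Finset.single_le_sum (f := fun i => (z i).natAbs) (fun _ _ => Nat.zero_le _)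
      (Finset.mem_univ i)
  have h1 : (fun i => (m i : ℤ)) ∈ B χ I := ⟨m, hm, fun i hi => (hI i).1 hi, rfl⟩
  have hnn : ∀ i, 0 ≤ z i + N * m i := by
    intro i
    by_cases hi : i ∈ I
    · have h2 : 1 ≤ m i := Nat.one_le_iff_ne_zero.2 ((hI i).2 hi)
      have h3 := hN i
      have h4 : -((z i).natAbs : ℤ) ≤ z i := by omega
      have h5 : ((z i).natAbs : ℤ) ≤ N := by exact_mod_cast h3
      have h6 : (N : ℤ) * 1 ≤ N * m i := by
        apply mul_le_mul_of_nonneg_left _ (by positivity)
        exact_mod_cast h2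
      linarith
    · have h2 : z i = 0 := by
        by_contra h; exact hi (hz' i h)
      rw [h2]; positivity
  have h2 : (fun i => z i + N * m i) ∈ B χ I := by
    refine ⟨fun i => (z i + N * m i).toNat, ?_, ?_, ?_⟩
    · have : ∑ i, (z i + N * m i) • χ i = 0 := by
        simp only [add_smul, Finset.sum_add_distrib, hz, zero_add, mul_smul]
        rw [← Finset.smul_sum]
        have : ∑ i, ((m i : ℕ) : ℤ) • χ i = 0 := by simpa using hm
        rw [this, smul_zero]
      rw [← this]
      apply Finset.sum_congr rfl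
      intro i _
      rw [← natCast_zsmul, Int.toNat_of_nonneg (hnn i)]
    · intro i hi
      by_contra hiI
      apply hi
      have h3 : z i = 0 := by
        by_contra h; exact hiI (hz' i h)
      have h4 : m i = 0 := by
        by_contra h; exact hiI ((hI i).1 h)
      simp [h3, h4]
    · funext i
      exact (Int.toNat_of_nonneg (hnn i)).symm
  have h3 : z = (fun i => z i + N * m i) - (N : ℤ) • (fun i => (m i : ℤ)) := by
    funext i
    simp
  rw [h3]
  exact AddSubgroup.sub_mem _ (AddSubgroup.subset_closure h2)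
    (AddSubgroup.zsmul_mem _ (AddSubgroup.subset_closure h1) _)

/-- Integer vectors: more vectors than coordinates satisfy a relation not divisible by `p`. -/
theorem exists_relation {r : ℕ} {ι : Type*} [Fintype ι] (c : ι → Fin r → ℤ)
    (h : r < Fintype.card ι) (p : ℤ) (hp : Prime p) :
    ∃ b : ι → ℤ, ∑ j, b j • c j = 0 ∧ ∃ j, ¬ p ∣ b j := by
  classical
  have hdep : ¬ LinearIndependent ℤ c := by
    intro hli
    have := hli.fintype_card_le_finrank
    rw [Module.finrank_fin_fun] at this
    omega
  obtain ⟨g, hg, i, hi⟩ := Fintype.not_linearIndependent_iff.1 hdep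
  -- divide by the gcd
  obtain ⟨b, hb, hgcd⟩ := Finset.extract_gcd g (s := (Finset.univ : Finset ι)) ⟨i, Finset.mem_univ i⟩
  set e := Finset.univ.gcd g with he
  have he0 : e ≠ 0 := by
    intro h0
    exact hi (Finset.gcd_eq_zero_iff.1 h0 i (Finset.mem_univ i))
  refine ⟨b, ?_, ?_⟩
  · have h1 : e • ∑ j, b j • c j = 0 := by
      rw [Finset.smul_sum, ← hg]
      apply Finset.sum_congr rfl
      intro j hj
      rw [hb j hj, mul_smul]
    exact (smul_eq_zero.1 h1).resolve_left he0
  · by_contra hcon
    push Not at hcon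
    have : p ∣ Finset.univ.gcd b := Finset.dvd_gcd (fun j _ => hcon j)
    rw [hgcd] at this
    exact hp.not_isUnit (isUnit_of_dvd_one this)

/-- Generating all relations by those with support of size at most `r + 1`. -/
theorem L_le_small {r : ℕ} (g : Fin r → X) (hg : ∀ x : X, ∃ c : Fin r → ℤ, x = ∑ k, c k • g k)
    (χ : Fin n → X) (I : Finset (Fin n)) :
    L χ I ≤ AddSubgroup.closure {z | ∃ S : Finset (Fin n), S ⊆ I ∧ S.card ≤ r + 1 ∧ z ∈ L χ S} := by
  classical
  intro z hz
  set M := AddSubgroup.closure {z | ∃ S : Finset (Fin n), S ⊆ I ∧ S.card ≤ r + 1 ∧ z ∈ L χ S}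
    with hM
  choose c hc using fun i => hg (χ i)
  -- key: for every prime `p` some multiple prime to `p` is in `M`
  have key : ∀ p : ℤ, Prime p → ∃ s : ℤ, ¬ p ∣ s ∧ s • z ∈ M := by
    intro p hp
    let P : Finset (Fin n) → Prop := fun S => S ⊆ I ∧ ∃ s : ℤ, ¬ p ∣ s ∧ ∀ i ∈ I,
      ∃ a : Fin n → ℤ, (∀ j, a j ≠ 0 → j ∈ S) ∧ s • χ i = ∑ j, a j • χ j
    have hPI : P I := by
      refine ⟨Finset.Subset.refl _, 1, hp.not_dvd_one, fun i hi => ⟨Pi.single i 1, ?_, ?_⟩⟩
      · intro j hj
        by_cases h : j = i
        · rw [h]; exact hi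
        · rw [Pi.single_eq_of_ne h] at hj; exact absurd rfl hj
      · rw [Finset.sum_eq_single i]
        · simp
        · intro j _ hj; rw [Pi.single_eq_of_ne hj, zero_smul]
        · intro h; exact absurd (Finset.mem_univ i) h
    obtain ⟨S, hSmem, hSmin⟩ := Finset.exists_min_image
      ((Finset.univ : Finset (Finset (Fin n))).filter P) Finset.card ⟨I, by simp [hPI]⟩
    rw [Finset.mem_filter] at hSmem
    obtain ⟨-, hSI, s, hs, ha⟩ := hSmem
    have hcard : S.card ≤ r := by
      by_contra hlt
      push Not at hlt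
      obtain ⟨b, hb, j0, hj0⟩ := exists_relation (ι := S) (fun j => c j) (by simpa using hlt) p hp
      -- relation among the `χ_j`, `j ∈ S`
      have hrel : ∑ j : S, b j • χ j = 0 := by
        have : ∀ j : S, b j • χ j = ∑ k, (b j * c j k) • g k := by
          intro j
          rw [hc j, Finset.smul_sum]
          simp only [mul_smul]
        simp only [this]
        rw [Finset.sum_comm]
        apply Finset.sum_eq_zero
        intro k _
        rw [← Finset.sum_smul]
        have h1 := congrFun hb k
        simp only [Finset.sum_apply, Pi.smul_apply, smul_eq_mul, Pi.zero_apply] at h1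
        rw [h1, zero_smul]
      let b' : Fin n → ℤ := fun j => if h : j ∈ S then b ⟨j, h⟩ else 0
      have hb'0 : ∀ j, j ∉ S → b' j = 0 := fun j hj => by simp [b', hj]
      have hb'sum : ∑ j, b' j • χ j = 0 := by
        rw [← hrel]
        rw [← Finset.sum_subset (Finset.subset_univ S) (fun j _ hj => by
          rw [hb'0 j hj, zero_smul])]
        rw [← Finset.sum_coe_sort]
        apply Finset.sum_congr rfl
        intro j _
        simp [b']
      have hb'j0 : b' j0 = b j0 := by simp [b']
      have hlt' : (S.erase j0).card < S.card := Finset.card_erase_lt_of_mem j0.2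
      have hP' : P (S.erase j0) := by
        refine ⟨(Finset.erase_subset _ _).trans hSI, b j0 * s, ?_, ?_⟩
        · intro h
          rcases hp.dvd_or_dvd h with h | h
          · exact hj0 h
          · exact hs h
        · intro i hi
          obtain ⟨a, ha1, ha2⟩ := ha i hi
          refine ⟨fun j => b j0 * a j - a j0 * b' j, ?_, ?_⟩
          · intro j hj
            rw [Finset.mem_erase]
            constructor
            · rintro rfl
              apply hj
              change b j0 * a j0 - a j0 * b' j0 = 0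
              rw [hb'j0]; ring
            · by_contra hjS
              apply hj
              have h1 : a j = 0 := by
                by_contra h; exact hjS (ha1 j h)
              change b j0 * a j - a j0 * b' j = 0
              rw [h1, hb'0 j hjS]; ring
          · rw [mul_smul, ha2, Finset.smul_sum]
            simp only [sub_smul, mul_smul, Finset.sum_sub_distrib]
            rw [← Finset.smul_sum (s := Finset.univ) (f := fun j => b' j • χ j), hb'sum, smul_zero,
              sub_zero]
      have := hSmin (S.erase j0) (by simp [hP'])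
      omega
    choose! a ha1 ha2 using ha
    refine ⟨s, hs, ?_⟩
    -- the relation of `i`
    let ρ : Fin n → Fin n → ℤ := fun i => s • Pi.single i (1 : ℤ) - a i
    have hρ : ∀ i ∈ I, ρ i ∈ M := by
      intro i hi
      apply AddSubgroup.subset_closure
      refine ⟨insert i S, Finset.insert_subset hi hSI, ?_, ?_, ?_⟩
      · exact (Finset.card_insert_le _ _).trans (by omega)
      · have h1 : ∑ j, (Pi.single i (1 : ℤ) : Fin n → ℤ) j • χ j = χ i := by
          rw [Finset.sum_eq_single i]
          · simp
          · intro j _ hj; rw [Pi.single_eq_of_ne hj, zero_smul]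
          · intro h; exact absurd (Finset.mem_univ i) h
        have h2 : ∀ j, ρ i j • χ j =
            s • ((Pi.single i (1 : ℤ) : Fin n → ℤ) j • χ j) - a i j • χ j := by
          intro j
          simp only [ρ, Pi.sub_apply, Pi.smul_apply, smul_eq_mul, sub_smul, mul_smul]
        simp only [h2, Finset.sum_sub_distrib]
        rw [← Finset.smul_sum, h1, ← ha2 i hi, sub_self]
      · intro j hj
        rw [Finset.mem_insert]
        by_contra hcon
        push Not at hcon
        apply hj
        have h1 : a i j = 0 := by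
          by_contra h; exact hcon.2 (ha1 i hi j h)
        simp [ρ, h1, Pi.single_eq_of_ne hcon.1]
    have hsum : ∑ i ∈ I, z i • ρ i ∈ M :=
      AddSubgroup.sum_mem _ (fun i hi => AddSubgroup.zsmul_mem _ (hρ i hi) _)
    have hML : M ≤ L χ I := by
      rw [hM, AddSubgroup.closure_le]
      rintro w ⟨T, hT, -, hw⟩
      exact L_mono hT hw
    have hw : s • z - ∑ i ∈ I, z i • ρ i ∈ M := by
      apply AddSubgroup.subset_closure
      refine ⟨S, hSI, by omega, ?_, ?_⟩
      · exact (AddSubgroup.sub_mem _ (AddSubgroup.zsmul_mem _ hz s) (hML hsum)).1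
      · intro j hj
        by_contra hjS
        apply hj
        have h1 : ∀ i ∈ I, z i • ρ i j = z i * (s * (Pi.single i (1 : ℤ) : Fin n → ℤ) j) := by
          intro i hi
          have h2 : a i j = 0 := by
            by_contra h; exact hjS (ha1 i hi j h)
          simp only [ρ, Pi.sub_apply, Pi.smul_apply, smul_eq_mul, h2, sub_zero]
        have h3 : (∑ i ∈ I, z i • ρ i) j = ∑ i ∈ I, z i • ρ i j := by
          rw [Finset.sum_apply]; rfl
        rw [Pi.sub_apply, h3, Finset.sum_congr rfl h1, Pi.smul_apply, smul_eq_mul]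
        by_cases hjI : j ∈ I
        · rw [Finset.sum_eq_single j]
          · simp; ring
          · intro i _ hij
            rw [Pi.single_eq_of_ne (Ne.symm hij)]; ring
          · intro h; exact absurd hjI h
        · have h4 : z j = 0 := by
            by_contra h; exact hjI (hz.2 j h)
          rw [h4, Finset.sum_eq_zero]
          · simp
          · intro i hi
            have hji : j ≠ i := fun h => hjI (by rw [h]; exact hi)
            rw [Pi.single_eq_of_ne hji]; ring
    have := AddSubgroup.add_mem _ hw hsum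
    rwa [sub_add_cancel] at this
  -- conclude
  let 𝔞 : Ideal ℤ :=
    { carrier := {s | s • z ∈ M}
      zero_mem' := by simp
      add_mem' := fun {a b} ha hb => by
        simp only [Set.mem_ofPred_eq] at ha hb ⊢
        rw [add_smul]; exact AddSubgroup.add_mem _ ha hb
      smul_mem' := fun a b hb => by
        simp only [Set.mem_ofPred_eq] at hb ⊢
        rw [smul_eq_mul, mul_smul]; exact AddSubgroup.zsmul_mem _ hb _ }
  have hmem : ∀ s, s ∈ 𝔞 ↔ s • z ∈ M := fun s => Iff.rfl
  have hone : (1 : ℤ) ∈ 𝔞 := by
    rw [Submodule.IsPrincipal.mem_iff_generator_dvd 𝔞]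
    by_contra hnd
    have h1 : (Submodule.IsPrincipal.generator 𝔞).natAbs ≠ 1 := by
      intro h
      apply hnd
      rw [← Int.natAbs_dvd_natAbs, h]; simp
    obtain ⟨p, hp, hpd⟩ := Int.exists_prime_and_dvd h1
    obtain ⟨s, hs, hs'⟩ := key p hp
    apply hs
    exact hpd.trans ((Submodule.IsPrincipal.mem_iff_generator_dvd 𝔞).1 ((hmem s).2 hs'))
  have := (hmem 1).1 hone
  rwa [one_smul] at this

end Pool.Agent.Q93.TAU
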