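import Pool.Agent.Q93.TAU.Basic

/-!
# Extending a set to the support of an invariant monomial, and the bound
-/

namespace Pool.Agent.Q93.TAU

open Finset

variable {X : Type*} [AddCommGroup X] {n : ℕ}

/-- Every subset `J` of the support of an invariant monomial can be enlarged by at most `rank X`
elements to the support of an invariant monomial. -/
theorem exists_extension [Module.Finite ℤ X] {χ : Fin n → X} {I J : Finset (Fin n)} {m : Fin n → ℕ}
    (hm : ∑ i, m i • χ i = 0) (hI : ∀ i, m i ≠ 0 ↔ i ∈ I) (hJ : J ⊆ I) :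
    ∃ J' : Finset (Fin n), J ⊆ J' ∧ J' ⊆ I ∧ J'.card ≤ J.card + Module.finrank ℤ X ∧
      ∃ m' : Fin n → ℕ, ∑ i, m' i • χ i = 0 ∧ ∀ i, m' i ≠ 0 ↔ i ∈ J' := by
  classical
  let P : Finset (Fin n) → Prop := fun T => J ⊆ T ∧ T ⊆ I ∧
    ∃ m' : Fin n → ℕ, ∑ i, m' i • χ i = 0 ∧ ∀ i, m' i ≠ 0 ↔ i ∈ T
  have hPI : P I := ⟨hJ, Finset.Subset.refl _, m, hm, hI⟩
  obtain ⟨T, hTmem, hTmin⟩ := Finset.exists_min_image
    ((Finset.univ : Finset (Finset (Fin n))).filter P) Finset.card ⟨I, by simp [hPI]⟩
  rw [Finset.mem_filter] at hTmem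
  obtain ⟨-, hJT, hTI, m', hm', hm'T⟩ := hTmem
  refine ⟨T, hJT, hTI, ?_, m', hm', hm'T⟩
  by_contra hlt
  push Not at hlt
  have hcard : Module.finrank ℤ X < (T \ J).card := by
    rw [Finset.card_sdiff_of_subset hJT]; omega
  -- the characters outside `J` are dependent
  have hdep : ¬ LinearIndependent ℤ (fun i : (T \ J : Finset (Fin n)) => χ i) := by
    intro hli
    have := hli.fintype_card_le_finrank
    rw [Fintype.card_coe] at this
    omega
  obtain ⟨g, hg, i0, hi0⟩ := Fintype.not_linearIndependent_iff.1 hdep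
  -- make some coefficient positive
  obtain ⟨b, hb, hbpos⟩ : ∃ b : (T \ J : Finset (Fin n)) → ℤ, ∑ i, b i • χ i = 0 ∧ ∃ i, 0 < b i := by
    rcases lt_or_gt_of_ne hi0 with h | h
    · refine ⟨fun i => - g i, ?_, i0, by simpa using h⟩
      simp only [neg_smul, Finset.sum_neg_distrib, hg, neg_zero]
    · exact ⟨g, hg, i0, h⟩
  let b' : Fin n → ℤ := fun j => if h : j ∈ T \ J then b ⟨j, h⟩ else 0
  have hb'0 : ∀ j, j ∉ T \ J → b' j = 0 := fun j hj => by simp only [b', dif_neg hj]
  have hb'sum : ∑ j, b' j • χ j = 0 := by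
    rw [← hb]
    rw [← Finset.sum_subset (Finset.subset_univ (T \ J)) (fun j _ hj => by
      rw [hb'0 j hj, zero_smul])]
    rw [← Finset.sum_coe_sort]
    apply Finset.sum_congr rfl
    intro j _
    have : b' j = b j := by simp only [b', dif_pos j.2]
    rw [this]
  obtain ⟨i1, hi1⟩ := hbpos
  have hb'i1 : 0 < b' i1 := by
    have : b' i1 = b i1 := by simp only [b', dif_pos i1.2]
    rw [this]; exact hi1
  have hpos : ∀ i ∈ T, (0 : ℚ) < m' i := by
    intro i hi
    exact_mod_cast Nat.pos_of_ne_zero ((hm'T i).2 hi)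
  -- choose the index maximizing `b'_i / m'_i`
  obtain ⟨k, hkmem, hkmax⟩ := Finset.exists_max_image ((T \ J).filter (fun i => 0 < b' i))
    (fun i => (b' i : ℚ) / m' i) ⟨i1, by rw [Finset.mem_filter]; exact ⟨i1.2, hb'i1⟩⟩
  rw [Finset.mem_filter, Finset.mem_sdiff] at hkmem
  obtain ⟨⟨hkT, hkJ⟩, hk0⟩ := hkmem
  have hmk : (0 : ℚ) < m' k := hpos k hkT
  -- the new vector
  let w : Fin n → ℤ := fun i => b' k * m' i - m' k * b' i
  have hw0 : ∀ i, 0 ≤ w i := by
    intro i
    by_cases hi : i ∈ T \ J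
    · by_cases hbi : 0 < b' i
      · have h1 := hkmax i (by rw [Finset.mem_filter]; exact ⟨hi, hbi⟩)
        have hmi : (0 : ℚ) < m' i := hpos i (Finset.mem_sdiff.1 hi).1
        rw [div_le_div_iff₀ hmi hmk] at h1
        have h2 : (b' i : ℤ) * m' k ≤ b' k * m' i := by exact_mod_cast h1
        change 0 ≤ b' k * m' i - m' k * b' i
        linarith
      · have h1 : 0 ≤ b' k * m' i := by positivity
        have h2 : (m' k : ℤ) * b' i ≤ 0 := by
          apply mul_nonpos_of_nonneg_of_nonpos (by positivity)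
          omega
        change 0 ≤ b' k * m' i - m' k * b' i
        linarith
    · change 0 ≤ b' k * m' i - m' k * b' i
      rw [hb'0 i hi]
      have h1 : 0 ≤ b' k * m' i := by positivity
      linarith
  have hwk : w k = 0 := by
    change b' k * m' k - m' k * b' k = 0
    ring
  have hwJ : ∀ i ∈ J, 0 < w i := by
    intro i hi
    have h1 : i ∉ T \ J := fun h => (Finset.mem_sdiff.1 h).2 hi
    change 0 < b' k * m' i - m' k * b' i
    rw [hb'0 i h1]
    have h2 : 0 < (m' i : ℤ) := by exact_mod_cast Nat.pos_of_ne_zero ((hm'T i).2 (hJT hi))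
    have h3 := mul_pos hk0 h2
    linarith
  have hwT : ∀ i, i ∉ T → w i = 0 := by
    intro i hi
    have h1 : i ∉ T \ J := fun h => hi (Finset.mem_sdiff.1 h).1
    have h2 : m' i = 0 := by
      by_contra h; exact hi ((hm'T i).1 h)
    change b' k * m' i - m' k * b' i = 0
    rw [hb'0 i h1, h2]; simp
  have hwsum : ∑ i, w i • χ i = 0 := by
    have h1 : ∀ i, w i • χ i = b' k • (m' i • χ i) - (m' k : ℤ) • (b' i • χ i) := by
      intro i
      change (b' k * m' i - m' k * b' i) • χ i = _
      rw [sub_smul, mul_smul, mul_smul, natCast_zsmul]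
    simp only [h1, Finset.sum_sub_distrib]
    rw [← Finset.smul_sum, ← Finset.smul_sum, hm', hb'sum, smul_zero, smul_zero, sub_zero]
  let T' : Finset (Fin n) := Finset.univ.filter (fun i => w i ≠ 0)
  have hT'T : T' ⊆ T.erase k := by
    intro i hi
    rw [Finset.mem_filter] at hi
    rw [Finset.mem_erase]
    constructor
    · rintro rfl
      exact hi.2 hwk
    · by_contra h
      exact hi.2 (hwT i h)
  have hlt' : T'.card < T.card :=
    lt_of_le_of_lt (Finset.card_le_card hT'T) (Finset.card_erase_lt_of_mem hkT)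
  have hP' : P T' := by
    refine ⟨?_, (hT'T.trans (Finset.erase_subset _ _)).trans hTI, fun i => (w i).toNat, ?_, ?_⟩
    · intro i hi
      rw [Finset.mem_filter]
      exact ⟨Finset.mem_univ _, (hwJ i hi).ne'⟩
    · rw [← hwsum]
      apply Finset.sum_congr rfl
      intro i _
      rw [← natCast_zsmul, Int.toNat_of_nonneg (hw0 i)]
    · intro i
      rw [Finset.mem_filter]
      have := hw0 i
      constructor
      · intro h
        refine ⟨Finset.mem_univ _, fun h0 => h ?_⟩
        change (w i).toNat = 0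
        rw [h0]; rfl
      · rintro ⟨-, h⟩ h0
        have := Int.toNat_eq_zero.1 h0
        omega
  have := hTmin T' (by simp [hP'])
  omega

/-- The support bound, for any number `r` of generators. -/
theorem isBound_of_generators [Module.Finite ℤ X] {r : ℕ} (g : Fin r → X)
    (hg : ∀ x : X, ∃ c : Fin r → ℤ, x = ∑ k, c k • g k) (χ : Fin n → X) :
    IsBound χ (1 + Module.finrank ℤ X + r) := by
  classical
  intro I
  -- the largest support
  let P : Finset (Fin n) → Prop := fun T => T ⊆ I ∧
    ∃ m' : Fin n → ℕ, ∑ i, m' i • χ i = 0 ∧ ∀ i, m' i ≠ 0 ↔ i ∈ T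
  have hP0 : P ∅ := ⟨Finset.empty_subset _, 0, by simp, by simp⟩
  obtain ⟨I', hImem, hImax⟩ := Finset.exists_max_image
    ((Finset.univ : Finset (Finset (Fin n))).filter P) Finset.card ⟨∅, by simp [hP0]⟩
  rw [Finset.mem_filter] at hImem
  obtain ⟨-, hI'I, m, hm, hmI⟩ := hImem
  -- all invariant monomials supported in `I` are supported in `I'`
  have hBsub : B χ I ⊆ L χ I' := by
    rintro z ⟨m2, h1, h2, rfl⟩
    refine ⟨by simpa using h1, ?_⟩
    intro i hi
    have hi' : m2 i ≠ 0 := by simpa using hi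
    by_contra hiI
    have hPn : P (I' ∪ Finset.univ.filter (fun i => m2 i ≠ 0)) := by
      refine ⟨?_, fun i => m i + m2 i, ?_, ?_⟩
      · apply Finset.union_subset hI'I
        intro j hj
        exact h2 j (Finset.mem_filter.1 hj).2
      · simp only [add_smul, Finset.sum_add_distrib, hm, h1, add_zero]
      · intro j
        rw [Finset.mem_union, Finset.mem_filter, ← hmI j]
        change m j + m2 j ≠ 0 ↔ _
        constructor
        · intro h
          by_contra hcon
          push Not at hcon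
          have h3 : m2 j = 0 := hcon.2 (Finset.mem_univ _)
          apply h
          rw [hcon.1, h3]
        · rintro (h | h)
          · omega
          · have := h.2
            omega
    have h3 := hImax _ (by rw [Finset.mem_filter]; exact ⟨Finset.mem_univ _, hPn⟩)
    have h4 : I'.card < (I' ∪ Finset.univ.filter (fun i => m2 i ≠ 0)).card := by
      apply Finset.card_lt_card
      refine ⟨Finset.subset_union_left, fun h => hiI (h ?_)⟩
      rw [Finset.mem_union, Finset.mem_filter]
      exact Or.inr ⟨Finset.mem_univ _, hi'⟩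
    omega
  apply le_antisymm
  · rw [AddSubgroup.closure_le]
    intro z hz
    have h1 := L_le_small g hg χ I' (hBsub hz)
    have h2 : AddSubgroup.closure
        {z | ∃ S : Finset (Fin n), S ⊆ I' ∧ S.card ≤ r + 1 ∧ z ∈ L χ S} ≤
        AddSubgroup.closure {z | ∃ J : Finset (Fin n), J ⊆ I ∧
          J.card ≤ 1 + Module.finrank ℤ X + r ∧ z ∈ B χ J} := by
      rw [AddSubgroup.closure_le]
      rintro w ⟨S, hSI', hS, hw⟩
      obtain ⟨J', h3, h4, h5, m', hm', hm'J⟩ := exists_extension hm hmI hSI'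
      have h6 := L_le_closure hm' hm'J (L_mono h3 hw)
      refine AddSubgroup.closure_mono ?_ h6
      intro v hv
      exact ⟨J', h4.trans hI'I, by omega, hv⟩
    exact h2 h1
  · rw [AddSubgroup.closure_le]
    rintro z ⟨J, hJ, -, hz⟩
    exact AddSubgroup.subset_closure (B_mono hJ hz)

theorem exists_generators [AddGroup.FG X] :
    ∃ g : Fin (AddGroup.rank X) → X, ∀ x : X, ∃ c : Fin (AddGroup.rank X) → ℤ,
      x = ∑ k, c k • g k := by
  classical
  obtain ⟨S, hS, hS'⟩ := AddGroup.rank_spec X
  let e : Fin (AddGroup.rank X) ≃ S := (Fintype.equivFinOfCardEq (by rw [Fintype.card_coe, hS])).symm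
  refine ⟨fun k => (e k : X), fun x => ?_⟩
  have hx : x ∈ AddSubgroup.closure (S : Set X) := by rw [hS']; trivial
  have hx2 : x ∈ Submodule.span ℤ (S : Set X) := by
    rw [← AddSubgroup.toIntSubmodule_closure]; exact hx
  have hr : (S : Set X) = Set.range (fun k => (e k : X)) := by
    ext y
    constructor
    · intro hy
      exact ⟨e.symm ⟨y, hy⟩, by simp⟩
    · rintro ⟨k, rfl⟩
      exact (e k).2
  rw [hr, Submodule.mem_span_range_iff_exists_fun] at hx2
  obtain ⟨c, hc⟩ := hx2
  exact ⟨c, hc.symm⟩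

theorem tau_le [AddGroup.FG X] (χ : Fin n → X) :
    tau χ ≤ 1 + Module.finrank ℤ X + AddGroup.rank X := by
  obtain ⟨g, hg⟩ := exists_generators (X := X)
  have : Module.Finite ℤ X := Module.Finite.iff_addGroup_fg.2 inferInstance
  exact Nat.sInf_le (isBound_of_generators g hg χ)

end Pool.Agent.Q93.TAU
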